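import Pool.Agent.helper92.VC.Spec

universe u

namespace Pool.Agent.helper92.VC

open MvPolynomial

theorem ERS_mono (ι : Type) [DecidableEq ι] (K : Type u) [Field K] (w : ℕ) (l : List ι) :
    ∀ (S S' : Set ((ι → ℕ) → K)), S' ⊆ S → ROs K w l S → ROs K w l S' := by
  induction l with
  | nil =>
    intro S S' h hS
    obtain ⟨g, hg⟩ := hS
    exact ⟨g, h.trans hg⟩
  | cons x s ih =>
    intro S S' h hS
    obtain ⟨⟨g, hg⟩, h2⟩ := hS
    refine ⟨⟨g, h.trans hg⟩, ih _ _ ?_ h2⟩
    rintro T' ⟨T, hT, i, rfl⟩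
    exact ⟨T, h hT, i, rfl⟩

theorem ERS_dim (ι : Type) [DecidableEq ι] (K : Type u) [Field K] (w : ℕ) (S : Set ((ι → ℕ) → K)) (x : ι)
    (j : ℕ) (h : DimLE K w S) : DimLE K w (restr x j '' S) := by
  obtain ⟨g, hg⟩ := h
  refine ⟨fun i => restr x j (g i), ?_⟩
  rintro T' ⟨T, hT, rfl⟩
  have h1 := hg hT
  clear hT
  rw [SetLike.mem_coe] at h1 ⊢
  induction h1 using Submodule.span_induction with
  | mem f hf =>
    obtain ⟨i, rfl⟩ := hf
    exact Submodule.subset_span ⟨i, rfl⟩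
  | zero =>
    have : restr x j (0 : (ι → ℕ) → K) = 0 := rfl
    rw [this]; exact Submodule.zero_mem _
  | add f1 f2 _ _ h1 h2 =>
    have : restr x j (f1 + f2) = restr x j f1 + restr x j f2 := rfl
    rw [this]; exact Submodule.add_mem _ h1 h2
  | smul a f _ h1 =>
    have : restr x j (a • f) = a • restr x j f := rfl
    rw [this]; exact Submodule.smul_mem _ a h1

theorem ERS : ERS_stmt.{u} := by
  intro ι _ K _ w l
  induction l with
  | nil =>
    intro S x j h
    exact ERS_dim ι K w S x j h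
  | cons y s ih =>
    intro S x j h
    obtain ⟨h1, h2⟩ := h
    by_cases hxy : y = x
    · subst hxy
      rw [List.erase_cons_head]
      refine ERS_mono ι K w s _ _ ?_ h2
      rintro T' ⟨T, hT, rfl⟩
      exact ⟨T, hT, j, rfl⟩
    · rw [List.erase_cons_tail (by simpa using hxy)]
      refine ⟨ERS_dim ι K w S x j h1, ?_⟩
      refine ERS_mono ι K w _ _ _ ?_ (ih _ x j h2)
      rintro T' ⟨T, ⟨T0, hT0, rfl⟩, i, rfl⟩
      refine ⟨restr y i T0, ⟨T0, hT0, i, rfl⟩, ?_⟩
      funext e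
      simp only [restr]
      rw [Function.update_comm hxy]

end Pool.Agent.helper92.VC
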